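import Pool.Agent.U892.PD.Stm

set_option autoImplicit false

open Filter Topology Set
open scoped ContDiff

namespace Pool.Agent.U458.PD

open Pool.Agent.U892.PD

lemma quad_lin (l m : ℝ) (Q₁ Q₂ : Fin 6 → ℝ) (p : ℝ × ℝ) :
    quad (l • Q₁ + m • Q₂) p = l * quad Q₁ p + m * quad Q₂ p := by
  unfold quad
  simp only [Pi.add_apply, Pi.smul_apply, smul_eq_mul]
  ring

lemma quad_smul (k : ℝ) (Q : Fin 6 → ℝ) (p : ℝ × ℝ) : quad (k • Q) p = k * quad Q p := by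
  unfold quad
  simp only [Pi.smul_apply, smul_eq_mul]
  ring

theorem t_LEAF1 : S_LEAF1 := by
  intro hU Ω F hF Q₁ Q₂ hli hloc K c hK
  have hne : ∀ l m : ℝ, (l ≠ 0 ∨ m ≠ 0) → l • Q₁ + m • Q₂ ≠ 0 := by
    intro l m hlm h0
    have h := LinearIndependent.pair_iff.1 hli l m h0
    rcases hlm with h' | h'
    · exact h' h.1
    · exact h' h.2
  have hat : ∀ q ∈ K, ∃ l m : ℝ, (l ≠ 0 ∨ m ≠ 0) ∧ ∀ᶠ p in 𝓝 q, F p = c → quad (l • Q₁ + m • Q₂) p = 0 := by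
    intro q hq
    obtain ⟨V, hV, h⟩ := hloc q (hK.sub hq)
    obtain ⟨l, m, hlm, h1⟩ := h q (mem_of_mem_nhds hV)
    refine ⟨l, m, hlm, ?_⟩
    filter_upwards [hV] with p hp hpc
    rw [quad_lin]
    exact h1 p hp (by rw [hpc, hK.level q hq])
  obtain ⟨p0, hp0⟩ := hK.conn.nonempty
  obtain ⟨l, m, hlm, h0⟩ := hat p0 hp0
  refine ⟨l, m, hlm, ?_⟩
  set R : Fin 6 → ℝ := l • Q₁ + m • Q₂ with hR
  haveI : ConnectedSpace K := isConnected_iff_connectedSpace.1 hK.conn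
  let S : Set K := {p | ∀ᶠ p' in 𝓝 (p : ℝ × ℝ), F p' = c → quad R p' = 0}
  have hopen : IsOpen S := by
    have h : IsOpen {p : ℝ × ℝ | ∀ᶠ p' in 𝓝 p, F p' = c → quad R p' = 0} := isOpen_setOf_eventually_nhds
    exact h.preimage continuous_subtype_val
  have hclosed : IsClosed S := by
    apply isClosed_of_closure_subset
    intro p hp
    obtain ⟨l', m', hlm', h'⟩ := hat p p.2
    have hoo : IsOpen {q : ℝ × ℝ | ∀ᶠ p' in 𝓝 q, F p' = c → quad (l' • Q₁ + m' • Q₂) p' = 0} :=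
      isOpen_setOf_eventually_nhds
    obtain ⟨s, hs1, hs2⟩ := mem_closure_iff.1 hp _ (hoo.preimage continuous_subtype_val) h'
    have hs1' : ∀ᶠ p' in 𝓝 (s : ℝ × ℝ), F p' = c → quad (l' • Q₁ + m' • Q₂) p' = 0 := hs1
    have hs2' : ∀ᶠ p' in 𝓝 (s : ℝ × ℝ), F p' = c → quad R p' = 0 := hs2
    have hsc : F s = c := hK.level s s.2
    obtain ⟨k, hk⟩ := hU Ω F hF s (hK.sub s.2) (l' • Q₁ + m' • Q₂) R (hne l' m' hlm')
      (by rw [hsc]; exact hs1') (by rw [hsc]; exact hs2')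
    show ∀ᶠ p' in 𝓝 (p : ℝ × ℝ), F p' = c → quad R p' = 0
    filter_upwards [h'] with q hq hqc
    rw [hk, quad_smul, hq hqc, mul_zero]
  have hS : S = univ := IsClopen.eq_univ ⟨hclosed, hopen⟩ ⟨⟨p0, hp0⟩, h0⟩
  intro p hp
  have h1 : (⟨p, hp⟩ : K) ∈ S := by rw [hS]; exact mem_univ _
  have h2 : ∀ᶠ p' in 𝓝 p, F p' = c → quad R p' = 0 := h1
  exact h2.self_of_nhds (hK.level p hp)

end Pool.Agent.U458.PD
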